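import Mathlib

set_option autoImplicit false

/-!
# One shift per dyadic block: the combinatorial core
-/

open Finset

namespace Pool.Agent.W6h19.ET

/-- A system of dyadic blocks with bounded multiplicities and with many rich blocks. -/
structure Sys (M J k₀ : ℕ) (c : ℝ) (Bl : ℕ → Finset ℕ) : Prop where
  mem : ∀ l, ∀ a ∈ Bl l, 2 ^ l ≤ a ∧ a < 2 ^ (l + 1)
  mult : ∀ k, k₀ ≤ k → ∀ l ≤ k, ∀ z, ((Bl k ×ˢ Bl l).filter fun p => p.1 + p.2 = z).card ≤ M
  rich : ∀ k, k₀ ≤ k → ∃ l, l ≤ k ∧ k < l + J ∧ c ^ 2 * 2 ^ l ≤ ((Bl l).card : ℝ) ^ 2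

/-- The part of a finite set in `[u, v)`. -/
def part (S : Finset ℕ) (u v : ℕ) : Finset ℕ := S.filter fun a => u ≤ a ∧ a < v

theorem mem_part {S : Finset ℕ} {u v a : ℕ} : a ∈ part S u v ↔ a ∈ S ∧ u ≤ a ∧ a < v := by
  simp [part]

theorem part_card_sq' {S : Finset ℕ} {M : ℕ}
    (hS : ∀ z, ((S ×ˢ S).filter fun p => p.1 + p.2 = z).card ≤ M) (u h : ℕ) :
    (part S u (u + h)).card ^ 2 ≤ 2 * h * M := by
  classical
  set P := part S u (u + h) with hP
  have h1 : (P ×ˢ P).card ≤ M * (Ico (2 * u) (2 * u + 2 * h)).card := by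
    refine card_le_mul_card_image_of_maps_to (f := fun p : ℕ × ℕ => p.1 + p.2) ?_ M ?_
    · rintro ⟨a, b⟩ hab
      rw [mem_product] at hab
      have ha := mem_part.1 hab.1
      have hb := mem_part.1 hab.2
      rw [mem_Ico]
      simp only
      simp only at ha hb
      omega
    · intro z _
      refine le_trans (card_le_card ?_) (hS z)
      intro p hp
      rw [mem_filter, mem_product] at hp ⊢
      exact ⟨⟨(mem_part.1 hp.1.1).1, (mem_part.1 hp.1.2).1⟩, hp.2⟩
  rw [card_product, Nat.card_Ico] at h1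
  have h2 : 2 * u + 2 * h - 2 * u = 2 * h := by omega
  rw [h2] at h1
  calc P.card ^ 2 = P.card * P.card := by ring
    _ ≤ M * (2 * h) := h1
    _ = 2 * h * M := by ring

theorem part_card_sq {M J k₀ : ℕ} {c : ℝ} {Bl : ℕ → Finset ℕ} (hS : Sys M J k₀ c Bl) {k : ℕ}
    (hk : k₀ ≤ k) (u h : ℕ) : (part (Bl k) u (u + h)).card ^ 2 ≤ 2 * h * M :=
  part_card_sq' (fun z => hS.mult k hk k le_rfl z) u h

theorem part_split (S : Finset ℕ) {u v w : ℕ} (h1 : u ≤ v) (h2 : v ≤ w) :
    (part S u w).card = (part S u v).card + (part S v w).card := by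
  classical
  rw [← card_union_of_disjoint]
  · congr 1
    ext a
    rw [mem_union, mem_part, mem_part, mem_part]
    constructor
    · rintro ⟨ha, h3, h4⟩
      by_cases h : a < v
      · exact Or.inl ⟨ha, h3, h⟩
      · exact Or.inr ⟨ha, by omega, h4⟩
    · rintro (⟨ha, h3, h4⟩ | ⟨ha, h3, h4⟩)
      · exact ⟨ha, h3, by omega⟩
      · exact ⟨ha, by omega, h4⟩
  · rw [disjoint_left]
    intro a ha hb
    have := mem_part.1 ha
    have := mem_part.1 hb
    omega

/-- A position with between a quarter and (about) a quarter of the elements to its left. -/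
theorem exists_quarter (S : Finset ℕ) (u D : ℕ) (hpos : 0 < (part S u (u + D)).card) :
    ∃ p, u ≤ p ∧ p ≤ u + D ∧ (part S u (u + D)).card ≤ 4 * (part S u p).card ∧
      4 * (part S u p).card ≤ (part S u (u + D)).card + 3 := by
  classical
  set N := (part S u (u + D)).card with hN
  have hex : ∃ p, N ≤ 4 * (part S u p).card := ⟨u + D, by omega⟩
  set p := Nat.find hex with hp
  have hp1 : N ≤ 4 * (part S u p).card := Nat.find_spec hex
  have hp2 : p ≤ u + D := Nat.find_min' hex (by omega)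
  have hp3 : u < p := by
    by_contra h
    have : part S u p = ∅ := by
      rw [eq_empty_iff_forall_notMem]
      intro a ha
      have := mem_part.1 ha
      omega
    rw [this, card_empty] at hp1
    omega
  refine ⟨p, hp3.le, hp2, hp1, ?_⟩
  have h4 : ¬ N ≤ 4 * (part S u (p - 1)).card := Nat.find_min hex (by omega)
  have h5 : (part S u p).card = (part S u (p - 1)).card + (part S (p - 1) p).card :=
    part_split S (by omega) (by omega)
  have h6 : (part S (p - 1) p).card ≤ 1 := by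
    rw [card_le_one]
    intro a ha b hb
    have := mem_part.1 ha
    have := mem_part.1 hb
    omega
  omega

/-- The combinatorial statement: in a dense interval there is a point `x`, and there are `i` levels
with sets of shifts of positive density which give `i` representations. -/
theorem claim (M J : ℕ) (hM : 1 ≤ M) (c : ℝ) (hc : 0 < c) (i : ℕ) :
    ∀ (d : ℝ), 0 < d → ∀ B : ℕ, ∃ (m B' : ℕ) (p : ℝ), 0 < p ∧
      ∀ (k₀ : ℕ) (Bl : ℕ → Finset ℕ), Sys M J k₀ c Bl → ∀ k : ℕ, k₀ + B' ≤ k →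
      ∀ u lam : ℕ, lam ≤ k → k ≤ lam + B →
        d ^ 2 * 4 ^ lam ≤ ((part (Bl k) u (u + 2 ^ lam)).card : ℝ) ^ 2 * 2 ^ k →
      ∃ (x : ℕ) (T : ℕ → Finset ℕ) (Λ : Finset ℕ), u ≤ x ∧ x < u + 2 ^ lam ∧ Λ.card = i ∧
        (∀ l ∈ Λ, l < lam ∧ k ≤ l + B') ∧
        (∀ l ∈ Λ, (∀ y ∈ T l, y ≤ m * 2 ^ l) ∧ p * 2 ^ l ≤ ((T l).card : ℝ)) ∧
        ∀ τ : ℕ → ℕ, (∀ l ∈ Λ, τ l ∈ T l) →
          i ≤ ((Bl k).filter fun a => u ≤ a ∧ ∃ l ∈ Λ, ∃ b ∈ Bl l, a + b + τ l = x).card := by
  classical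
  induction i with
  | zero =>
    intro d hd B
    refine ⟨0, 0, 1, one_pos, ?_⟩
    intro k₀ Bl hS k hk u lam hlk hkl hdens
    refine ⟨u, fun _ => ∅, ∅, le_rfl, ?_, by simp, by simp, by simp, by simp⟩
    have : 0 < 2 ^ lam := by positivity
    omega
  | succ i ih =>
    intro d hd B
    -- the constant `G`
    obtain ⟨G, hG1, hG⟩ : ∃ G : ℕ, 1 ≤ G ∧ 128 * (M : ℝ) * 2 ^ B ≤ d ^ 2 * 2 ^ G := by
      obtain ⟨G, hG⟩ := pow_unbounded_of_one_lt (128 * (M : ℝ) * 2 ^ B / d ^ 2)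
        (one_lt_two : (1 : ℝ) < 2)
      refine ⟨G + 1, by omega, ?_⟩
      rw [div_lt_iff₀ (by positivity)] at hG
      have : (2 : ℝ) ^ G ≤ 2 ^ (G + 1) := pow_le_pow_right₀ (by norm_num) (by omega)
      nlinarith [sq_nonneg d, this, mul_le_mul_of_nonneg_left this (sq_nonneg d)]
    obtain ⟨m₁, B₁, p₁, hp₁, ih⟩ := ih (d / 4) (by positivity) (B + J + G)
    refine ⟨max m₁ (2 ^ (J + G)), B₁ + B + J + G, min p₁ (d * c / (4 * 2 ^ B * M)),
      lt_min hp₁ (by positivity), ?_⟩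
    intro k₀ Bl hS k hk u lam hlk hkl hdens
    have hk0 : k₀ ≤ k := by omega
    -- the new level
    obtain ⟨ℓ, hℓ1, hℓ2, hℓrich⟩ := hS.rich (lam - G) (by omega)
    have hGlam : ℓ + G ≤ lam := by omega
    have hlamJ : lam < ℓ + J + G := by omega
    set S := Bl k with hSdef
    set N := (part S u (u + 2 ^ lam)).card with hN
    -- lower bound for `N`
    have hN2 : 128 * (M : ℝ) * 2 ^ ℓ ≤ (N : ℝ) ^ 2 := by
      obtain ⟨e, rfl⟩ := Nat.exists_eq_add_of_le hlk
      obtain ⟨f, hf⟩ := Nat.exists_eq_add_of_le hGlam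
      have he : (2 : ℝ) ^ e ≤ 2 ^ B := pow_le_pow_right₀ (by norm_num) (by omega)
      have h1 : d ^ 2 * 2 ^ lam ≤ (N : ℝ) ^ 2 * 2 ^ e := by
        have h2 : (4 : ℝ) ^ lam = 2 ^ lam * 2 ^ lam := by
          rw [← mul_pow]; norm_num
        rw [h2, pow_add] at hdens
        have h3 : (0 : ℝ) < 2 ^ lam := by positivity
        nlinarith [hdens, h3]
      have h4 : d ^ 2 * 2 ^ lam ≤ (N : ℝ) ^ 2 * 2 ^ B :=
        h1.trans (mul_le_mul_of_nonneg_left he (sq_nonneg _))
      have h5 : (2 : ℝ) ^ lam = 2 ^ ℓ * 2 ^ G * 2 ^ f := by rw [hf, pow_add, pow_add]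
      have h6 : (1 : ℝ) ≤ 2 ^ f := one_le_pow₀ (by norm_num)
      have h7 : 128 * (M : ℝ) * 2 ^ B * 2 ^ ℓ ≤ (N : ℝ) ^ 2 * 2 ^ B := by
        calc 128 * (M : ℝ) * 2 ^ B * 2 ^ ℓ ≤ d ^ 2 * 2 ^ G * 2 ^ ℓ := by gcongr
          _ ≤ d ^ 2 * 2 ^ G * 2 ^ ℓ * 2 ^ f := le_mul_of_one_le_right (by positivity) h6
          _ = d ^ 2 * 2 ^ lam := by rw [h5]; ring
          _ ≤ _ := h4
      have h8 : (0 : ℝ) < 2 ^ B := by positivity
      nlinarith [h7, h8]
    have hN12 : 12 ≤ N := by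
      have h1 : (1 : ℝ) ≤ M := by exact_mod_cast hM
      have h2 : (1 : ℝ) ≤ 2 ^ ℓ := one_le_pow₀ (by norm_num)
      have h3 : (128 : ℝ) ≤ (N : ℝ) ^ 2 := by nlinarith
      by_contra h
      push Not at h
      have h4 : (N : ℝ) ≤ 11 := by exact_mod_cast (by omega : N ≤ 11)
      nlinarith [(Nat.cast_nonneg N : (0 : ℝ) ≤ N)]
    obtain ⟨p₀, hp1, hp2, hp3, hp4⟩ := exists_quarter S u (2 ^ lam) (by omega)
    rw [← hN] at hp3 hp4
    -- the gap
    set g := 4 * 2 ^ ℓ with hg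
    have hgap : 4 * (part S p₀ (p₀ + g)).card ≤ N := by
      have h1 := part_card_sq hS hk0 p₀ g
      have h2 : (((part S p₀ (p₀ + g)).card : ℝ)) ^ 2 ≤ 2 * g * M := by exact_mod_cast h1
      have h3 : (4 * ((part S p₀ (p₀ + g)).card : ℝ)) ^ 2 ≤ (N : ℝ) ^ 2 := by
        calc (4 * ((part S p₀ (p₀ + g)).card : ℝ)) ^ 2
            = 16 * ((part S p₀ (p₀ + g)).card : ℝ) ^ 2 := by ring
          _ ≤ 16 * (2 * (g : ℝ) * M) := by gcongr
          _ = 128 * (M : ℝ) * 2 ^ ℓ := by rw [hg]; push_cast; ring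
          _ ≤ _ := hN2
      have h4 := abs_le_of_sq_le_sq h3 (by positivity)
      have h5 : (4 * ((part S p₀ (p₀ + g)).card : ℝ)) ≤ N := (le_abs_self _).trans h4
      exact_mod_cast h5
    have h2lam : 2 ^ (ℓ + 1) ≤ 2 ^ lam := Nat.pow_le_pow_right (by norm_num) (by omega)
    -- the elements to the right of the gap
    set R := part S (p₀ + g) (u + 2 ^ lam) with hR
    have hRcard : N ≤ 4 * R.card := by
      by_cases h : p₀ + g ≤ u + 2 ^ lam
      · have h1 := part_split S hp1 (show p₀ ≤ u + 2 ^ lam by omega)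
        have h2 := part_split S (show p₀ ≤ p₀ + g by omega) h
        rw [← hN] at h1
        rw [← hR] at h2
        omega
      · have h1 := part_split S hp1 (show p₀ ≤ u + 2 ^ lam by omega)
        have h2 : (part S p₀ (u + 2 ^ lam)).card ≤ (part S p₀ (p₀ + g)).card := by
          refine card_le_card ?_
          intro a ha
          rw [mem_part] at ha ⊢
          exact ⟨ha.1, ha.2.1, by omega⟩
        rw [← hN] at h1
        omega
    have hpow : 2 ^ lam = 2 ^ (lam - ℓ) * 2 ^ ℓ := by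
      rw [← pow_add]; congr 1; omega
    have hl0 : 0 < 2 ^ ℓ := by positivity
    -- pigeonhole
    obtain ⟨j, hj, hjcard⟩ := exists_le_card_fiber_of_nsmul_le_card_of_maps_to
      (s := R) (t := range (2 ^ (lam - ℓ))) (f := fun a => (a - u) / 2 ^ ℓ)
      (b := (N : ℝ) / (4 * 2 ^ (lam - ℓ))) (by
        intro a ha
        rw [mem_part] at ha
        rw [mem_range, Nat.div_lt_iff_lt_mul hl0, ← hpow]
        omega) ⟨0, by rw [mem_range]; positivity⟩ (by
        rw [card_range, nsmul_eq_mul]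
        push_cast
        rw [mul_div_assoc', div_le_iff₀ (by positivity)]
        have : (N : ℝ) ≤ 4 * R.card := by exact_mod_cast hRcard
        have h0 : (0 : ℝ) < 2 ^ (lam - ℓ) := by positivity
        nlinarith)
    rw [mem_range] at hj
    set u' := u + j * 2 ^ ℓ with hu'
    have hfib : ∀ a ∈ R.filter (fun a => (a - u) / 2 ^ ℓ = j), a ∈ S ∧ u' ≤ a ∧ a < u' + 2 ^ ℓ ∧
        p₀ + g ≤ a := by
      intro a ha
      rw [mem_filter, mem_part] at ha
      obtain ⟨⟨haS, ha1, ha2⟩, haj⟩ := ha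
      have h1 : j * 2 ^ ℓ ≤ a - u := by
        rw [← haj]; exact Nat.div_mul_le_self _ _
      have h2 : a - u < j * 2 ^ ℓ + 2 ^ ℓ := by
        rw [← haj]; exact Nat.lt_div_mul_add hl0
      refine ⟨haS, ?_, ?_, ha1⟩ <;> omega
    have hu'2 : u' + 2 ^ ℓ ≤ u + 2 ^ lam := by
      rw [hu', hpow]
      have : (j + 1) * 2 ^ ℓ ≤ 2 ^ (lam - ℓ) * 2 ^ ℓ := Nat.mul_le_mul_right _ hj
      rw [add_mul, one_mul] at this
      omega
    have hfne : 0 < (R.filter (fun a => (a - u) / 2 ^ ℓ = j)).card := by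
      have h1 : (0 : ℝ) < (N : ℝ) / (4 * 2 ^ (lam - ℓ)) := by
        have : (0 : ℝ) < N := by exact_mod_cast (by omega : 0 < N)
        positivity
      exact_mod_cast h1.trans_le hjcard
    obtain ⟨a₁, ha₁⟩ := card_pos.1 hfne
    have hu'p : p₀ + 3 * 2 ^ ℓ ≤ u' := by
      have := hfib a₁ ha₁
      omega
    -- the density of the new interval
    have hdens' : (d / 4) ^ 2 * 4 ^ ℓ ≤ ((part (Bl k) u' (u' + 2 ^ ℓ)).card : ℝ) ^ 2 * 2 ^ k := by
      have h1 : (R.filter (fun a => (a - u) / 2 ^ ℓ = j)).card ≤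
          (part (Bl k) u' (u' + 2 ^ ℓ)).card := by
        refine card_le_card fun a ha => ?_
        have := hfib a ha
        rw [mem_part]
        exact ⟨this.1, this.2.1, this.2.2.1⟩
      have h2 : (N : ℝ) / (4 * 2 ^ (lam - ℓ)) ≤ ((part (Bl k) u' (u' + 2 ^ ℓ)).card : ℝ) :=
        hjcard.trans (by exact_mod_cast h1)
      rw [div_le_iff₀ (by positivity)] at h2
      set Q := ((part (Bl k) u' (u' + 2 ^ ℓ)).card : ℝ) with hQ
      have h3 : (N : ℝ) ^ 2 ≤ (Q * (4 * 2 ^ (lam - ℓ))) ^ 2 := by gcongr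
      have h4 : (4 : ℝ) ^ lam = 4 ^ ℓ * (2 ^ (lam - ℓ)) ^ 2 := by
        rw [← pow_mul, mul_comm (lam - ℓ) 2, pow_mul, show (2 : ℝ) ^ 2 = 4 by norm_num, ← pow_add]
        congr 1; omega
      have h5 : (0 : ℝ) < (2 ^ (lam - ℓ)) ^ 2 := by positivity
      have h6 : d ^ 2 * (4 ^ ℓ * (2 ^ (lam - ℓ)) ^ 2) ≤ (Q * (4 * 2 ^ (lam - ℓ))) ^ 2 * 2 ^ k := by
        rw [← h4]
        exact hdens.trans (by gcongr)
      have h7 : d ^ 2 * (4 ^ ℓ * (2 ^ (lam - ℓ)) ^ 2) = (16 * ((d / 4) ^ 2 * 4 ^ ℓ)) *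
          ((2 : ℝ) ^ (lam - ℓ)) ^ 2 := by ring
      have h8 : (Q * (4 * 2 ^ (lam - ℓ))) ^ 2 * 2 ^ k = (16 * (Q ^ 2 * 2 ^ k)) *
          ((2 : ℝ) ^ (lam - ℓ)) ^ 2 := by ring
      rw [h7, h8] at h6
      have h9 := le_of_mul_le_mul_right h6 h5
      linarith
    obtain ⟨x, T, Λ, hx1, hx2, hΛ, hlev, hT, hrep⟩ := ih k₀ Bl hS k (by omega) u' ℓ (by omega)
      (by omega) hdens'
    -- the new set of shifts
    set F := part S u p₀ with hF
    set Tn := (F ×ˢ Bl ℓ).image (fun p => x - p.1 - p.2) with hTn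
    have hℓΛ : ℓ ∉ Λ := fun h => by have := (hlev ℓ h).1; omega
    have hsum : ∀ a ∈ F, ∀ b ∈ Bl ℓ, a + b ≤ x := by
      intro a ha b hb
      have h1 := (mem_part.1 ha).2.2
      have h2 := (hS.mem ℓ b hb).2
      have h3 : 2 ^ (ℓ + 1) = 2 * 2 ^ ℓ := by rw [pow_succ]; ring
      omega
    have hcardT : F.card * (Bl ℓ).card ≤ M * Tn.card := by
      rw [← card_product]
      refine card_le_mul_card_image _ M ?_
      intro y hy
      refine le_trans (card_le_card ?_) (hS.mult k hk0 ℓ (by omega) (x - y))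
      rintro ⟨a, b⟩ hab
      rw [mem_filter, mem_product] at hab ⊢
      obtain ⟨⟨ha, hb⟩, hxy⟩ := hab
      have h1 := hsum a ha b hb
      simp only at ha hb hxy ⊢
      exact ⟨⟨(mem_part.1 ha).1, hb⟩, by omega⟩
    refine ⟨x, Function.update T ℓ Tn, insert ℓ Λ, by omega, by omega, ?_, ?_, ?_, ?_⟩
    · rw [card_insert_of_notMem hℓΛ, hΛ]
    · intro l hl
      rcases mem_insert.1 hl with rfl | hl
      · constructor <;> omega
      · have := hlev l hl
        constructor <;> omega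
    · intro l hl
      rcases mem_insert.1 hl with rfl | hl
      · rw [Function.update_self]
        refine ⟨?_, ?_⟩
        · intro y hy
          obtain ⟨⟨a, b⟩, hab, rfl⟩ := mem_image.1 hy
          rw [mem_product] at hab
          have h1 := (mem_part.1 hab.1).2.1
          simp only at h1 ⊢
          have h2 : x - a - b ≤ 2 ^ lam := by omega
          have h3 : 2 ^ lam ≤ 2 ^ (J + G) * 2 ^ l := by
            rw [← pow_add]
            exact Nat.pow_le_pow_right (by norm_num) (by omega)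
          have h4 : 2 ^ (J + G) * 2 ^ l ≤ max m₁ (2 ^ (J + G)) * 2 ^ l :=
            Nat.mul_le_mul_right _ (le_max_right _ _)
          omega
        · have hM0 : (0 : ℝ) < M := by exact_mod_cast hM
          have h1 : (F.card : ℝ) * (Bl l).card ≤ M * Tn.card := by exact_mod_cast hcardT
          have h2 : (N : ℝ) ≤ 4 * F.card := by exact_mod_cast hp3
          have h3 : d * c / (4 * 2 ^ B) * 2 ^ l ≤ (F.card : ℝ) * (Bl l).card := by
            have h4 : (d * c / (4 * 2 ^ B) * 2 ^ l) ^ 2 ≤ ((F.card : ℝ) * (Bl l).card) ^ 2 := by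
              obtain ⟨e, he⟩ := Nat.exists_eq_add_of_le hlk
              obtain ⟨f, hf⟩ := Nat.exists_eq_add_of_le (show l ≤ lam by omega)
              have h5 : (N : ℝ) ^ 2 ≤ (4 * (F.card : ℝ)) ^ 2 := by gcongr
              have h6 : d ^ 2 * 2 ^ lam ≤ (N : ℝ) ^ 2 * 2 ^ e := by
                have h2 : (4 : ℝ) ^ lam = 2 ^ lam * 2 ^ lam := by
                  rw [← mul_pow]; norm_num
                rw [h2, he, pow_add] at hdens
                have h3 : (0 : ℝ) < 2 ^ lam := by positivity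
                nlinarith [hdens, h3]
              have h7 : (2 : ℝ) ^ e ≤ (2 ^ B) ^ 2 := by
                rw [← pow_mul]
                exact pow_le_pow_right₀ (by norm_num) (by omega)
              have h8 : (2 : ℝ) ^ l ≤ 2 ^ lam := pow_le_pow_right₀ (by norm_num) (by omega)
              have h9 : d ^ 2 * 2 ^ l ≤ (4 * (F.card : ℝ)) ^ 2 * (2 ^ B) ^ 2 :=
                calc d ^ 2 * 2 ^ l ≤ d ^ 2 * 2 ^ lam := by gcongr
                  _ ≤ (N : ℝ) ^ 2 * 2 ^ e := h6
                  _ ≤ (4 * (F.card : ℝ)) ^ 2 * (2 ^ B) ^ 2 := by gcongr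
              have h10 : (d * c / (4 * 2 ^ B) * 2 ^ l) ^ 2
                  = (d ^ 2 * 2 ^ l) * (c ^ 2 * 2 ^ l) / (16 * (2 ^ B) ^ 2) := by
                field_simp
                ring
              rw [h10, div_le_iff₀ (by positivity)]
              calc (d ^ 2 * 2 ^ l) * (c ^ 2 * 2 ^ l)
                  ≤ ((4 * (F.card : ℝ)) ^ 2 * (2 ^ B) ^ 2) * ((Bl l).card : ℝ) ^ 2 := by gcongr
                _ = ((F.card : ℝ) * (Bl l).card) ^ 2 * (16 * (2 ^ B) ^ 2) := by ring
            exact (abs_le_of_sq_le_sq' h4 (by positivity)).2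
          have h4 : min p₁ (d * c / (4 * 2 ^ B * M)) ≤ d * c / (4 * 2 ^ B * M) := min_le_right _ _
          have h5 : d * c / (4 * 2 ^ B * M) * 2 ^ l * M = d * c / (4 * 2 ^ B) * 2 ^ l := by
            field_simp
          have h6 : d * c / (4 * 2 ^ B * M) * 2 ^ l * M ≤ Tn.card * M := by
            rw [h5]; linarith
          have h7 := le_of_mul_le_mul_right h6 hM0
          refine le_trans ?_ h7
          gcongr
      · have hne : l ≠ ℓ := fun h => hℓΛ (h ▸ hl)
        rw [Function.update_of_ne hne]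
        obtain ⟨h1, h2⟩ := hT l hl
        refine ⟨fun y hy => (h1 y hy).trans (Nat.mul_le_mul_right _ (le_max_left _ _)), ?_⟩
        refine le_trans ?_ h2
        gcongr
        exact min_le_left _ _
    · intro τ hτ
      have h1 : ∀ l ∈ Λ, τ l ∈ T l := by
        intro l hl
        have hne : l ≠ ℓ := fun h => hℓΛ (h ▸ hl)
        have := hτ l (mem_insert_of_mem hl)
        rwa [Function.update_of_ne hne] at this
      have h2 := hrep τ h1
      have h3 := hτ ℓ (mem_insert_self _ _)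
      rw [Function.update_self, hTn, mem_image] at h3
      obtain ⟨⟨a, b⟩, hab, habx⟩ := h3
      rw [mem_product] at hab
      obtain ⟨haF, hbB⟩ := hab
      simp only at haF hbB habx
      have h4 := hsum a haF b hbB
      have h5 := mem_part.1 haF
      have h6 : a ∉ (Bl k).filter fun a => u' ≤ a ∧ ∃ l ∈ Λ, ∃ b ∈ Bl l, a + b + τ l = x := by
        intro h
        have := (mem_filter.1 h).2.1
        omega
      calc i + 1 ≤ (insert a ((Bl k).filter fun a => u' ≤ a ∧ ∃ l ∈ Λ, ∃ b ∈ Bl l,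
            a + b + τ l = x)).card := by
            rw [card_insert_of_notMem h6]; omega
        _ ≤ _ := by
          refine card_le_card ?_
          intro a' ha'
          rcases mem_insert.1 ha' with rfl | ha'
          · rw [mem_filter]
            exact ⟨h5.1, h5.2.1, ℓ, mem_insert_self _ _, b, hbB, by omega⟩
          · rw [mem_filter] at ha' ⊢
            obtain ⟨h7, h8, l, hl, b', hb', hx⟩ := ha'
            exact ⟨h7, by omega, l, mem_insert_of_mem hl, b', hb', hx⟩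

end Pool.Agent.W6h19.ET
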