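import Pool.Agent.W6h19.ET.Core

set_option autoImplicit false

/-!
# Rich dyadic blocks
-/

open Finset

namespace Pool.Agent.W6h19.ET

open Classical in
/-- The dyadic block `A ∩ [2^k, 2^(k+1))`. -/
noncomputable def block (A : Set ℕ) (k : ℕ) : Finset ℕ :=
  (Ico (2 ^ k) (2 ^ (k + 1))).filter fun a => a ∈ A

theorem mem_block {A : Set ℕ} {k a : ℕ} :
    a ∈ block A k ↔ (2 ^ k ≤ a ∧ a < 2 ^ (k + 1)) ∧ a ∈ A := by
  classical
  simp [block]

theorem card_block_le (A : Set ℕ) (k : ℕ) : (block A k).card ≤ 2 ^ k := by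
  classical
  refine (card_filter_le _ _).trans ?_
  rw [Nat.card_Ico, pow_succ]
  omega

theorem part_block (A : Set ℕ) (k : ℕ) : part (block A k) (2 ^ k) (2 ^ k + 2 ^ k) = block A k := by
  ext a
  rw [mem_part, mem_block, pow_succ]
  constructor
  · rintro ⟨h, -⟩; exact h
  · rintro ⟨⟨h1, h2⟩, h3⟩
    exact ⟨⟨⟨h1, h2⟩, h3⟩, h1, by omega⟩

theorem sqrt_two_facts : Real.sqrt 2 ^ 2 = 2 ∧ 4 / 3 ≤ Real.sqrt 2 := by
  have h1 : Real.sqrt 2 ^ 2 = 2 := Real.sq_sqrt (by norm_num)
  refine ⟨h1, ?_⟩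
  refine Real.le_sqrt_of_sq_le ?_
  norm_num

theorem geom_le (n : ℕ) : ∑ l ∈ range n, Real.sqrt 2 ^ l ≤ 3 * Real.sqrt 2 ^ n := by
  obtain ⟨-, h2⟩ := sqrt_two_facts
  have h3 : Real.sqrt 2 ≠ 1 := by intro h; rw [h] at h2; norm_num at h2
  rw [geom_sum_eq h3, div_le_iff₀ (by linarith)]
  have h4 : (0 : ℝ) < Real.sqrt 2 ^ n := by positivity
  nlinarith

theorem count_lower (A : Set ℕ) (hA : A.Infinite) (C : ℕ)
    (hC : ∀ n, Nat.nth (fun a => a ∈ A) n ≤ C * (n + 1) ^ 2) (k : ℕ) :
    Real.sqrt 2 ^ (k + 1) / (C + 1) - 1 ≤ 1 + ∑ l ∈ range (k + 1), ((block A l).card : ℝ) := by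
  classical
  obtain ⟨hs2, hs⟩ := sqrt_two_facts
  set s := Real.sqrt 2 with hsdef
  set n := ⌊s ^ (k + 1) / (C + 1)⌋₊ with hn
  have hs0 : 0 < s := by linarith
  have hC0 : (0 : ℝ) < (C : ℝ) + 1 := by positivity
  have hn1 : s ^ (k + 1) / (C + 1) - 1 ≤ n := by
    have := Nat.lt_floor_add_one (s ^ (k + 1) / ((C : ℝ) + 1))
    rw [← hn] at this
    linarith
  have hn2 : (n : ℝ) ≤ s ^ (k + 1) / (C + 1) := Nat.floor_le (by positivity)
  have hcount : n ≤ Nat.count (fun a => a ∈ A) (2 ^ (k + 1)) := by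
    rcases Nat.eq_zero_or_pos n with h0 | hpos
    · rw [h0]; exact Nat.zero_le _
    · obtain ⟨n', hn'⟩ := Nat.exists_eq_succ_of_ne_zero hpos.ne'
      have h1 : Nat.nth (fun a => a ∈ A) n' < 2 ^ (k + 1) := by
        refine (hC n').trans_lt ?_
        rw [le_div_iff₀ hC0] at hn2
        have h2 : ((n : ℝ) * (C + 1)) ^ 2 ≤ (s ^ (k + 1)) ^ 2 := by gcongr
        have h3 : (s ^ (k + 1)) ^ 2 = 2 ^ (k + 1) := by
          rw [← pow_mul, mul_comm, pow_mul, hs2]
        rw [h3] at h2
        have h4 : ((C * (n' + 1) ^ 2 : ℕ) : ℝ) < ((2 ^ (k + 1) : ℕ) : ℝ) := by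
          push_cast
          have h5 : ((n' : ℝ) + 1) = n := by rw [hn']; push_cast; ring
          rw [h5]
          have h6 : (1 : ℝ) ≤ n := by exact_mod_cast hpos
          have h7 : (0 : ℝ) ≤ C := Nat.cast_nonneg C
          have h8 : (C : ℝ) * n ^ 2 < (n * (C + 1)) ^ 2 := by
            have : ((n : ℝ) * (C + 1)) ^ 2 = n ^ 2 * (C ^ 2 + 2 * C + 1) := by ring
            rw [this]
            have h9 : (0 : ℝ) < (n : ℝ) ^ 2 := by positivity
            nlinarith [mul_nonneg h9.le (sq_nonneg (C : ℝ)), mul_nonneg h9.le h7]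
          linarith
        exact_mod_cast h4
      have h2 : Nat.count (fun a => a ∈ A) (Nat.nth (fun a => a ∈ A) n' + 1) = n' + 1 :=
        Nat.count_nth_succ_of_infinite (p := fun a => a ∈ A) hA n'
      calc n = n' + 1 := hn'
        _ = Nat.count (fun a => a ∈ A) (Nat.nth (fun a => a ∈ A) n' + 1) := h2.symm
        _ ≤ _ := Nat.count_monotone _ h1
  have hupper : Nat.count (fun a => a ∈ A) (2 ^ (k + 1)) ≤
      1 + ∑ l ∈ range (k + 1), (block A l).card := by
    rw [Nat.count_eq_card_filter_range]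
    have hsub : (range (2 ^ (k + 1))).filter (fun a => a ∈ A) ⊆
        {0} ∪ (range (k + 1)).biUnion (fun l => block A l) := by
      intro a ha
      rw [mem_filter, mem_range] at ha
      rw [mem_union, mem_singleton, mem_biUnion]
      rcases Nat.eq_zero_or_pos a with h0 | hpos
      · exact Or.inl h0
      · refine Or.inr ⟨Nat.log 2 a, ?_, ?_⟩
        · rw [mem_range]
          exact Nat.log_lt_of_lt_pow hpos.ne' ha.1
        · rw [mem_block]
          exact ⟨⟨Nat.pow_log_le_self 2 hpos.ne', Nat.lt_pow_succ_log_self (by norm_num) a⟩, ha.2⟩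
    refine (card_le_card hsub).trans ((card_union_le _ _).trans ?_)
    rw [card_singleton]
    gcongr
    exact card_biUnion_le
  have h9 : ((n : ℕ) : ℝ) ≤ 1 + ∑ l ∈ range (k + 1), ((block A l).card : ℝ) := by
    exact_mod_cast hcount.trans hupper
  linarith

theorem rich_levels (C M : ℕ) : ∃ (c : ℝ) (J : ℕ), 0 < c ∧ ∀ A : Set ℕ, A.Infinite →
    (∀ n, Nat.nth (fun a => a ∈ A) n ≤ C * (n + 1) ^ 2) → ∀ k₀ : ℕ,
    (∀ k, k₀ ≤ k → ∀ l ≤ k, ∀ z,
      ((block A k ×ˢ block A l).filter fun p => p.1 + p.2 = z).card ≤ M) →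
    ∃ k₁, k₀ ≤ k₁ ∧ Sys M J k₁ c (block A) := by
  classical
  obtain ⟨hs2, hs⟩ := sqrt_two_facts
  set s := Real.sqrt 2 with hsdef
  have hs0 : 0 < s := by linarith
  have hs1 : 1 < s := by linarith
  obtain ⟨J, hJ⟩ := pow_unbounded_of_one_lt (12 * (2 * (M : ℝ) + 1) * (C + 1)) hs1
  have hC0 : (0 : ℝ) < (C : ℝ) + 1 := by positivity
  refine ⟨1 / (12 * (C + 1)), J, by positivity, ?_⟩
  intro A hA hC k₀ hmult
  set c : ℝ := 1 / (12 * (C + 1)) with hc
  have hc0 : 0 < c := by positivity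
  set K₀ : ℝ := ∑ l ∈ range k₀, (2 : ℝ) ^ l with hK₀
  have hK₀0 : 0 ≤ K₀ := by positivity
  obtain ⟨k₁, hk₁⟩ := pow_unbounded_of_one_lt (2 * ((C : ℝ) + 1) * (K₀ + 2)) hs1
  refine ⟨max (max k₀ k₁) J, le_trans (le_max_left _ _) (le_max_left _ _), ?_, ?_, ?_⟩
  · intro l a ha
    exact (mem_block.1 ha).1
  · intro k hk
    exact hmult k (le_trans (le_trans (le_max_left _ _) (le_max_left _ _)) hk)
  · intro k hk
    have hk0 : k₀ ≤ k := le_trans (le_trans (le_max_left _ _) (le_max_left _ _)) hk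
    have hk1 : k₁ ≤ k := le_trans (le_trans (le_max_right _ _) (le_max_left _ _)) hk
    have hkJ : J ≤ k := le_trans (le_max_right _ _) hk
    by_contra hcon
    push Not at hcon
    have hsl : ∀ l : ℕ, (s ^ l) ^ 2 = 2 ^ l := by
      intro l
      rw [← pow_mul, mul_comm, pow_mul, hs2]
    have hterm : ∀ l ∈ range (k + 1), ((block A l).card : ℝ) ≤
        (if l < k₀ then (2 : ℝ) ^ l else 0) + (if l < k + 1 - J then (2 * (M : ℝ) + 1) * s ^ l else 0)
          + c * s ^ l := by
      intro l hl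
      rw [mem_range] at hl
      have hcs : 0 ≤ c * s ^ l := by positivity
      have hMs : 0 ≤ (2 * (M : ℝ) + 1) * s ^ l := by positivity
      by_cases h1 : l < k₀
      · rw [if_pos h1]
        have : ((block A l).card : ℝ) ≤ 2 ^ l := by exact_mod_cast card_block_le A l
        split_ifs <;> linarith
      · rw [if_neg h1]
        by_cases h2 : l < k + 1 - J
        · rw [if_pos h2]
          have h3 := part_card_sq' (S := block A l) (M := M)
            (fun z => hmult l (by omega) l le_rfl z) (2 ^ l) (2 ^ l)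
          rw [part_block] at h3
          have h4 : ((block A l).card : ℝ) ^ 2 ≤ ((2 * (M : ℝ) + 1) * s ^ l) ^ 2 := by
            have h5 : ((block A l).card : ℝ) ^ 2 ≤ 2 * 2 ^ l * M := by exact_mod_cast h3
            rw [mul_pow, hsl]
            have h6 : (0 : ℝ) ≤ M := Nat.cast_nonneg M
            have h7 : (0 : ℝ) < 2 ^ l := by positivity
            nlinarith [mul_nonneg h7.le h6, mul_nonneg h7.le (sq_nonneg (M : ℝ))]
          have := (abs_le_of_sq_le_sq' h4 hMs).2
          linarith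
        · rw [if_neg h2]
          have h3 := hcon l (by omega) (by omega)
          have h4 : ((block A l).card : ℝ) ^ 2 ≤ (c * s ^ l) ^ 2 := by
            rw [mul_pow, hsl]; exact h3.le
          have := (abs_le_of_sq_le_sq' h4 hcs).2
          linarith
    have hsum := sum_le_sum hterm
    rw [sum_add_distrib, sum_add_distrib] at hsum
    have h1 : ∑ l ∈ range (k + 1), (if l < k₀ then (2 : ℝ) ^ l else 0) ≤ K₀ := by
      rw [← sum_filter]
      refine sum_le_sum_of_subset_of_nonneg ?_ (fun _ _ _ => by positivity)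
      intro l hl
      rw [mem_filter] at hl
      exact mem_range.2 hl.2
    have h2 : ∑ l ∈ range (k + 1), (if l < k + 1 - J then (2 * (M : ℝ) + 1) * s ^ l else 0) ≤
        s ^ (k + 1) / (4 * (C + 1)) := by
      rw [← sum_filter]
      calc ∑ l ∈ (range (k + 1)).filter (fun l => l < k + 1 - J), (2 * (M : ℝ) + 1) * s ^ l
          ≤ ∑ l ∈ range (k + 1 - J), (2 * (M : ℝ) + 1) * s ^ l := by
            refine sum_le_sum_of_subset_of_nonneg ?_ (fun _ _ _ => by positivity)
            intro l hl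
            rw [mem_filter] at hl
            exact mem_range.2 hl.2
        _ = (2 * (M : ℝ) + 1) * ∑ l ∈ range (k + 1 - J), s ^ l := by rw [mul_sum]
        _ ≤ (2 * (M : ℝ) + 1) * (3 * s ^ (k + 1 - J)) := by
            gcongr
            exact geom_le _
        _ ≤ s ^ (k + 1) / (4 * (C + 1)) := by
            rw [le_div_iff₀ (by positivity)]
            have h5 : s ^ (k + 1) = s ^ (k + 1 - J) * s ^ J := by
              rw [← pow_add]; congr 1; omega
            rw [h5]
            have h6 : 0 < s ^ (k + 1 - J) := by positivity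
            nlinarith [mul_le_mul_of_nonneg_left hJ.le h6.le]
    have h3 : ∑ l ∈ range (k + 1), c * s ^ l ≤ s ^ (k + 1) / (4 * (C + 1)) := by
      rw [← mul_sum]
      calc c * ∑ l ∈ range (k + 1), s ^ l ≤ c * (3 * s ^ (k + 1)) := by
            gcongr
            exact geom_le _
        _ = s ^ (k + 1) / (4 * (C + 1)) := by rw [hc]; field_simp; ring
    have h4 := count_lower A hA C hC k
    rw [← hsdef] at h4
    have h5 : s ^ (k + 1) / (C + 1) = 4 * (s ^ (k + 1) / (4 * (C + 1))) := by field_simp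
    have h6 : 2 * ((C : ℝ) + 1) * (K₀ + 2) < s ^ (k + 1) := by
      refine hk₁.trans_le (pow_le_pow_right₀ hs1.le (by omega))
    have h7 : K₀ + 2 < 2 * (s ^ (k + 1) / (4 * (C + 1))) := by
      rw [mul_div_assoc', lt_div_iff₀ (by positivity)]
      linarith
    linarith

end Pool.Agent.W6h19.ET
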