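import Mathlib

set_option autoImplicit false

/-!
# Borel-Cantelli for events which depend on disjoint groups of independent variables
-/

open MeasureTheory ProbabilityTheory Filter
open scoped ENNReal

namespace Pool.Agent.W6h19.ET

variable {Ω : Type*} [MeasurableSpace Ω]

/-- The event that the variables with index in `Λ` have values in the given sets. -/
def ev (t : ℕ → Ω → ℕ) (Λ : Finset ℕ) (T : ℕ → Finset ℕ) : Set Ω :=
  {ω | ∀ l ∈ Λ, t l ω ∈ T l}

omit [MeasurableSpace Ω] in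
theorem ev_eq (t : ℕ → Ω → ℕ) (Λ : Finset ℕ) (T : ℕ → Finset ℕ) :
    ev t Λ T = ⋂ l ∈ Λ, t l ⁻¹' (T l : Set ℕ) := by
  ext ω
  simp [ev]

theorem measurableSet_ev {t : ℕ → Ω → ℕ} (ht : ∀ l, Measurable (t l)) (Λ : Finset ℕ)
    (T : ℕ → Finset ℕ) : MeasurableSet (ev t Λ T) := by
  rw [ev_eq]
  exact Finset.measurableSet_biInter Λ fun l _ => ht l (Finset.measurableSet (T l))

theorem measure_ev (μ : Measure Ω) {t : ℕ → Ω → ℕ} (hind : iIndepFun t μ) (Λ : Finset ℕ)
    (T : ℕ → Finset ℕ) : μ (ev t Λ T) = ∏ l ∈ Λ, μ (t l ⁻¹' (T l : Set ℕ)) := by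
  rw [ev_eq]
  exact hind.measure_inter_preimage_eq_mul Λ (fun l _ => Finset.measurableSet (T l))

theorem borel_cantelli (μ : Measure Ω) [IsProbabilityMeasure μ] (t : ℕ → Ω → ℕ)
    (ht : ∀ l, Measurable (t l)) (hind : iIndepFun t μ) (Λ : ℕ → Finset ℕ)
    (hΛ : ∀ i j, i ≠ j → Disjoint (Λ i) (Λ j)) (T : ℕ → ℕ → Finset ℕ) (q : ℕ → ℝ)
    (hq0 : ∀ j, 0 ≤ q j) (hq : ∀ j, q j ≤ (μ (ev t (Λ j) (T j))).toReal)
    (hdiv : ¬ Summable q) : ∀ᵐ ω ∂μ, ∃ᶠ j in atTop, ω ∈ ev t (Λ j) (T j) := by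
  classical
  have hmeas : ∀ j, MeasurableSet (ev t (Λ j) (T j)) := fun j => measurableSet_ev ht _ _
  have hindep : iIndepSet (fun j => ev t (Λ j) (T j)) μ := by
    rw [iIndepSet_iff_meas_biInter hmeas]
    intro s
    set idx : ℕ → ℕ := fun l => if h : ∃ j, l ∈ Λ j then h.choose else 0 with hidx
    have hidxe : ∀ j l, l ∈ Λ j → idx l = j := by
      intro j l hl
      have hex : ∃ j, l ∈ Λ j := ⟨j, hl⟩
      have h1 : idx l = hex.choose := by simp only [hidx]; rw [dif_pos hex]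
      rw [h1]
      by_contra hne
      exact Finset.disjoint_left.1 (hΛ _ _ hne) hex.choose_spec hl
    set TT : ℕ → Finset ℕ := fun l => T (idx l) l with hTT
    have h1 : (⋂ j ∈ s, ev t (Λ j) (T j)) = ev t (s.biUnion Λ) TT := by
      ext ω
      simp only [Set.mem_iInter, ev, Set.mem_setOf_eq, Finset.mem_biUnion, hTT]
      constructor
      · rintro h l ⟨j, hj, hl⟩
        rw [hidxe j l hl]
        exact h j hj l hl
      · intro h j hj l hl
        have := h l ⟨j, hj, hl⟩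
        rwa [hidxe j l hl] at this
    rw [h1, measure_ev μ hind, Finset.prod_biUnion]
    · refine Finset.prod_congr rfl fun j _ => ?_
      rw [measure_ev μ hind]
      refine Finset.prod_congr rfl fun l hl => ?_
      simp only [hTT]
      rw [hidxe j l hl]
    · intro i _ j _ hij
      exact hΛ i j hij
  have htop : (∑' j, μ (ev t (Λ j) (T j))) = ∞ := by
    by_contra hne
    have hs := ENNReal.summable_toReal hne
    exact hdiv (Summable.of_nonneg_of_le hq0 hq hs)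
  have h1 := measure_limsup_eq_one hmeas hindep htop
  have h2 : ∀ᵐ ω ∂μ, ω ∈ limsup (fun j => ev t (Λ j) (T j)) atTop := by
    rw [← mem_ae_iff_prob_eq_one] at h1
    · exact h1
    · exact MeasurableSet.measurableSet_limsup hmeas
  filter_upwards [h2] with ω hω
  exact mem_limsup_iff_frequently_mem.1 hω

/-- Lower bound for the probability of the event. -/
theorem ev_lower (μ : Measure Ω) [IsProbabilityMeasure μ] {t : ℕ → Ω → ℕ}
    (hind : iIndepFun t μ) (ht : ∀ l, Measurable (t l)) {Λ : Finset ℕ} {T : ℕ → Finset ℕ}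
    {m : ℕ} {p η : ℝ} (hp : 0 ≤ p) (hη : 0 ≤ η)
    (hT : ∀ l ∈ Λ, (∀ y ∈ T l, y ≤ m * 2 ^ l) ∧ p * 2 ^ l ≤ ((T l).card : ℝ))
    (hpr : ∀ l ∈ Λ, ∀ y ≤ m * 2 ^ l, η / 2 ^ l ≤ μ.real {ω | t l ω = y}) :
    (p * η) ^ Λ.card ≤ (μ (ev t Λ T)).toReal := by
  classical
  rw [measure_ev μ hind, ENNReal.toReal_prod, ← Finset.prod_const]
  refine Finset.prod_le_prod (fun _ _ => by positivity) fun l hl => ?_
  obtain ⟨h1, h2⟩ := hT l hl
  have h3 : t l ⁻¹' (T l : Set ℕ) = ⋃ y ∈ T l, {ω | t l ω = y} := by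
    ext ω
    simp
  change p * η ≤ μ.real (t l ⁻¹' (T l : Set ℕ))
  rw [h3, measureReal_biUnion_finset]
  · have h2l : (0 : ℝ) < 2 ^ l := by positivity
    calc p * η = (p * 2 ^ l) * (η / 2 ^ l) := by field_simp
      _ ≤ ((T l).card : ℝ) * (η / 2 ^ l) := by gcongr
      _ = ∑ y ∈ T l, η / 2 ^ l := by rw [Finset.sum_const, nsmul_eq_mul]
      _ ≤ ∑ y ∈ T l, μ.real {ω | t l ω = y} := Finset.sum_le_sum fun y hy => hpr l hl y (h1 y hy)
  · intro y _ z _ hyz
    refine Set.disjoint_left.2 fun ω h h' => hyz ?_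
    exact h.symm.trans h'
  · intro y _
    exact ht l (measurableSet_singleton y)

end Pool.Agent.W6h19.ET
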