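import Pool.Agent.W6h19.ET.Growth
import Pool.Agent.W6h19.ET.Prob

set_option autoImplicit false

/-!
# One random shift per dyadic block
-/

open MeasureTheory ProbabilityTheory Filter Finset
open scoped ENNReal

namespace Pool.Agent.W6h19.ET

/-- `r_A(n)`. -/
noncomputable def rep (A : Set ℕ) (n : ℕ) : ℕ :=
  {p : ℕ × ℕ | p.1 ∈ A ∧ p.2 ∈ A ∧ p.1 + p.2 = n}.ncard

/-- The elements of the dyadic block number `k` are translated by `τ k`. -/
def moved (A : Set ℕ) (τ : ℕ → ℕ) : Set ℕ := {x | ∃ a ∈ A, x = a + τ (Nat.log 2 a)}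

theorem finite_rep (A : Set ℕ) (n : ℕ) :
    {p : ℕ × ℕ | p.1 ∈ A ∧ p.2 ∈ A ∧ p.1 + p.2 = n}.Finite := by
  refine Set.Finite.subset ((Set.finite_Iic n).prod (Set.finite_Iic n)) ?_
  rintro ⟨a, b⟩ ⟨-, -, h⟩
  simp only at h
  exact ⟨by simp only [Set.mem_Iic]; omega, by simp only [Set.mem_Iic]; omega⟩

theorem log_block {A : Set ℕ} {k a : ℕ} (h : a ∈ block A k) : Nat.log 2 a = k := by
  have := (mem_block.1 h).1
  exact Nat.log_eq_of_pow_le_of_lt_pow this.1 this.2

theorem mem_moved {A : Set ℕ} {τ : ℕ → ℕ} {k a : ℕ} (h : a ∈ block A k) : a + τ k ∈ moved A τ :=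
  ⟨a, (mem_block.1 h).2, by rw [log_block h]⟩

/-- Many pairs with the same sum in two blocks remain after the translation. -/
theorem rep_of_mult {A : Set ℕ} (τ : ℕ → ℕ) {k l z : ℕ} :
    ((block A k ×ˢ block A l).filter fun p => p.1 + p.2 = z).card ≤
      rep (moved A τ) (z + τ k + τ l) := by
  classical
  rw [rep, ← Set.ncard_coe_finset]
  refine Set.ncard_le_ncard_of_injOn (fun p => (p.1 + τ k, p.2 + τ l)) ?_ ?_ (finite_rep _ _)
  · rintro ⟨a, b⟩ hab
    rw [mem_coe, mem_filter, mem_product] at hab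
    obtain ⟨⟨ha, hb⟩, hz⟩ := hab
    simp only at ha hb hz
    exact ⟨mem_moved ha, mem_moved hb, by simp only; omega⟩
  · rintro ⟨a, b⟩ _ ⟨a', b'⟩ _ h
    simp only [Prod.mk.injEq] at h ⊢
    omega

theorem rep_of_filter {A : Set ℕ} (τ : ℕ → ℕ) {k x u : ℕ} {Λ : Finset ℕ} :
    ((block A k).filter fun a => u ≤ a ∧ ∃ l ∈ Λ, ∃ b ∈ block A l, a + b + τ l = x).card ≤
      rep (moved A τ) (x + τ k) := by
  classical
  rw [rep, ← Set.ncard_coe_finset]
  refine Set.ncard_le_ncard_of_injOn (fun a => (a + τ k, x - a)) ?_ ?_ (finite_rep _ _)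
  · intro a ha
    rw [mem_coe, mem_filter] at ha
    obtain ⟨ha, -, l, hl, b, hb, hx⟩ := ha
    refine ⟨mem_moved ha, ?_, by simp only; omega⟩
    have : x - a = b + τ l := by omega
    simp only
    rw [this]
    exact mem_moved hb
  · intro a ha a' ha' h
    simp only [Prod.mk.injEq] at h
    omega

/-- The theorem for a fixed number of representations. -/
theorem main (C M : ℕ) (hM : 1 ≤ M) : ∃ m₀ : ℕ, ∀ A : Set ℕ, A.Infinite →
    (∀ n, Nat.nth (fun a => a ∈ A) n ≤ C * (n + 1) ^ 2) →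
    ∀ (Ω : Type) [MeasurableSpace Ω] (μ : Measure Ω) [IsProbabilityMeasure μ] (t : ℕ → Ω → ℕ),
      (∀ k, Measurable (t k)) → iIndepFun t μ →
      (∀ᶠ k : ℕ in atTop, ∀ y ≤ m₀ * 2 ^ k,
        (k : ℝ) ^ (-(1 / M : ℝ)) / 2 ^ k ≤ μ.real {ω | t k ω = y}) →
      ∀ᵐ ω ∂μ, ∀ N : ℕ, ∃ n ≥ N, M ≤ rep (moved A fun k => t k ω) n := by
  classical
  obtain ⟨c, J, hc, hrich⟩ := rich_levels C M
  obtain ⟨m₀, B', p, hp, hclaim⟩ := claim M J hM c hc M c hc 0
  refine ⟨m₀, ?_⟩
  intro A hA hC Ω _ μ _ t ht hind hpr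
  by_cases hdet : ∃ k₀ : ℕ, ∀ k, k₀ ≤ k → ∀ l ≤ k, ∀ z,
      ((block A k ×ˢ block A l).filter fun p => p.1 + p.2 = z).card ≤ M
  · obtain ⟨k₀, hk₀⟩ := hdet
    obtain ⟨k₁, hk₁, hS⟩ := hrich A hA hC k₀ hk₀
    obtain ⟨k₂, hk₂⟩ := eventually_atTop.1 hpr
    -- the windows
    set D := J + B' + 1 with hD
    set K : ℕ → ℕ := fun j => D * (j + 1) + (k₁ + k₂ + B' + J + 1) with hK
    have hex : ∀ j, ∃ l, l ≤ K j ∧ K j < l + J ∧ c ^ 2 * 2 ^ l ≤ ((block A l).card : ℝ) ^ 2 :=
      fun j => hS.rich (K j) (by simp only [hK]; omega)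
    choose k hkK hKk hkrich using hex
    have hx : ∀ j, ∃ (x : ℕ) (T : ℕ → Finset ℕ) (Λ : Finset ℕ), 2 ^ k j ≤ x ∧ Λ.card = M ∧
        (∀ l ∈ Λ, l < k j ∧ k j ≤ l + B') ∧
        (∀ l ∈ Λ, (∀ y ∈ T l, y ≤ m₀ * 2 ^ l) ∧ p * 2 ^ l ≤ ((T l).card : ℝ)) ∧
        ∀ τ : ℕ → ℕ, (∀ l ∈ Λ, τ l ∈ T l) →
          M ≤ ((block A (k j)).filter fun a => 2 ^ k j ≤ a ∧
            ∃ l ∈ Λ, ∃ b ∈ block A l, a + b + τ l = x).card := by
      intro j
      obtain ⟨x, T, Λ, h1, -, h2, h3, h4, h5⟩ := hclaim k₁ (block A) hS (k j)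
        (by have := hKk j; simp only [hK] at this; omega) (2 ^ k j) (k j) le_rfl (by omega) (by
          rw [part_block]
          have h4 : (4 : ℝ) ^ k j = 2 ^ k j * 2 ^ k j := by
            rw [← mul_pow]; norm_num
          rw [h4, ← mul_assoc]
          have := hkrich j
          gcongr)
      exact ⟨x, T, Λ, h1, h2, h3, h4, h5⟩
    choose x T Λ hx1 hΛM hΛlev hT hrep using hx
    have hdisj : ∀ i j, i ≠ j → Disjoint (Λ i) (Λ j) := by
      have key : ∀ i j, i < j → Disjoint (Λ i) (Λ j) := by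
        intro i j hij
        rw [Finset.disjoint_left]
        intro l hl hl'
        have h1 := (hΛlev i l hl).1
        have h2 := (hΛlev j l hl').2
        have h3 := hkK i
        have h4 := hKk j
        simp only [hK] at h3 h4
        have h5 : D * (i + 1) + D ≤ D * (j + 1) := by
          have : D * (i + 1) + D = D * (i + 2) := by ring
          rw [this]
          exact Nat.mul_le_mul_left _ (by omega)
        omega
      intro i j hij
      rcases lt_or_gt_of_ne hij with h | h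
      · exact key i j h
      · exact (key j i h).symm
    have hM0 : (0 : ℝ) < M := by exact_mod_cast hM
    set q : ℕ → ℝ := fun j => p ^ M * ((K j : ℝ))⁻¹ with hq
    have hq0 : ∀ j, 0 ≤ q j := fun j => by simp only [hq]; positivity
    have hqle : ∀ j, q j ≤ (μ (ev t (Λ j) (T j))).toReal := by
      intro j
      have hKpos : (0 : ℝ) < K j := by
        have : 0 < K j := by simp only [hK]; omega
        exact_mod_cast this
      have h1 := ev_lower μ hind ht (Λ := Λ j) (T := T j) (m := m₀) (p := p)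
        (η := (K j : ℝ) ^ (-(1 / M : ℝ))) hp.le (by positivity) (hT j) (by
          intro l hl y hy
          have h2 := hΛlev j l hl
          have h3 := hKk j
          have h3' := hkK j
          have h4 : k₂ ≤ l := by simp only [hK] at h3; omega
          have h5 : 0 < l := by simp only [hK] at h3; omega
          refine le_trans ?_ (hk₂ l h4 y hy)
          have h6 : (K j : ℝ) ^ (-(1 / M : ℝ)) ≤ (l : ℝ) ^ (-(1 / M : ℝ)) := by
            refine Real.rpow_le_rpow_of_nonpos (by exact_mod_cast h5) ?_ ?_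
            · exact_mod_cast (by omega : l ≤ K j)
            · have : 0 < 1 / (M : ℝ) := by positivity
              linarith
          gcongr)
      rw [hΛM] at h1
      refine le_trans (le_of_eq ?_) h1
      simp only [hq]
      rw [mul_pow, ← Real.rpow_natCast ((K j : ℝ) ^ (-(1 / M : ℝ))) M, ← Real.rpow_mul hKpos.le]
      have : -(1 / (M : ℝ)) * M = -1 := by field_simp
      rw [this, Real.rpow_neg_one]
    have hdiv : ¬ Summable q := by
      intro hs
      have h1 : Summable fun j : ℕ => ((K j : ℝ))⁻¹ := by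
        have := hs.mul_left (p ^ M)⁻¹
        refine this.congr fun j => ?_
        simp only [hq]
        field_simp
      set E := D + (k₁ + k₂ + B' + J + 1) with hE
      have h2 : Summable fun j : ℕ => ((j : ℝ) + 1)⁻¹ := by
        refine Summable.of_nonneg_of_le (fun j => by positivity) (fun j => ?_)
          (h1.mul_left (E : ℝ))
        have hKj : (K j : ℝ) ≤ E * (j + 1) := by
          have : K j ≤ E * (j + 1) := by
            have h1 : k₁ + k₂ + B' + J + 1 ≤ (k₁ + k₂ + B' + J + 1) * (j + 1) :=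
              Nat.le_mul_of_pos_right _ (by omega)
            calc K j = D * (j + 1) + (k₁ + k₂ + B' + J + 1) := rfl
              _ ≤ D * (j + 1) + (k₁ + k₂ + B' + J + 1) * (j + 1) := Nat.add_le_add_left h1 _
              _ = E * (j + 1) := by rw [hE]; ring
          exact_mod_cast this
        have hKpos : (0 : ℝ) < K j := by
          have : 0 < K j := by simp only [hK]; omega
          exact_mod_cast this
        rw [inv_eq_one_div, div_le_iff₀ (by positivity), mul_assoc, mul_comm (((K j : ℝ))⁻¹),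
          ← mul_assoc, ← div_eq_mul_inv, le_div_iff₀ hKpos, one_mul]
        exact hKj
      have h3 : Summable fun j : ℕ => ((j : ℝ))⁻¹ := by
        rw [← summable_nat_add_iff 1]
        refine h2.congr fun j => ?_
        push_cast
        rfl
      exact Real.not_summable_natCast_inv h3
    have hbc := borel_cantelli μ t ht hind Λ hdisj T q hq0 hqle hdiv
    filter_upwards [hbc] with ω hω N
    obtain ⟨j, hjN, hj⟩ := frequently_atTop.1 hω N
    refine ⟨x j + t (k j) ω, ?_, (hrep j (fun l => t l ω) hj).trans (rep_of_filter _)⟩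
    have h1 := hx1 j
    have h2 : k j < 2 ^ k j := Nat.lt_two_pow_self
    have h3 := hKk j
    simp only [hK] at h3
    have h4 : j + 1 ≤ D * (j + 1) := Nat.le_mul_of_pos_left _ (by omega)
    omega
  · push Not at hdet
    refine Filter.Eventually.of_forall fun ω N => ?_
    obtain ⟨k, hk, l, hl, z, hz⟩ := hdet N
    refine ⟨z + t k ω + t l ω, ?_, (hz.le.trans (rep_of_mult _))⟩
    have h1 : 0 < ((block A k ×ˢ block A l).filter fun p => p.1 + p.2 = z).card := by omega
    obtain ⟨⟨a, b⟩, hab⟩ := card_pos.1 h1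
    rw [mem_filter, mem_product] at hab
    have h2 := (mem_block.1 hab.1.1).1.1
    have h3 : k < 2 ^ k := Nat.lt_two_pow_self
    have h4 := hab.2
    simp only at h2 h4
    omega

end Pool.Agent.W6h19.ET
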